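import Pool.Agent.Run7.h260.TW.Fin
import Pool.Agent.R882.HYM

/-!
# Kobayashi's conjecture for the images of towers over hypersurfaces and over coverings of complete
intersections, of quadratic degree

A tower of dimension `n` with the bound `s` (`Tower 3 n Base K s`) is a sequence of dominant rational
maps of finite degree `V = V_0 ⇢ V_1 ⇢ ... ⇢ V_k` between varieties of dimension `n` over `ℂ`. At the step
`V_i ⇢ V_(i + 1)`, of degree `b_i`, the canonical bundle of `V_i` is positive relative to `V_(i + 1)`
(`Positive`): `V_(i + 1)` is the image of `V_i` in a projective space, and for all varieties `Y'`,
`V_i ⇢ Y' ⇢ V_(i + 1)`, of degree `> 1` over `V_(i + 1)` there is a section of `K_(V_i) - m H` with a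
nonzero trace on `Y'`, where `s_i ≤ [V_i : Y'] (m + 1)`; for instance cyclic coverings of prime degree
branched along a sufficiently positive divisor. The bounds are `s_0 = s`, `s_(i + 1) = ⌊s_i / b_i⌋`. The
last variety `V_k`, with the bound `s_k`, is

* a smooth hypersurface of degree `d` in `ℙ^(n + 1)`, where for some `N` one has `d ≥ 7 N + n + 6`,
  `d > (n + 1) N`, `d > 3 (N + n - 1)` and `s_k < (N + 1) (d - n - N)`; or
* any variety with a generically finite map, of any degree, to a variety in `ℙ^(M + 1)` which is cut out
  by equations of degree at most `D` and has the regular canonical forms `P(x) ω₀` for all forms `P`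
  of degree `m`, for instance a smooth complete intersection of codimension at least two with
  `K = O(m)`; where for some `N` one has `m ≥ 7 N + 4`, `m + M + 2 > (M + 1) N`, `m + 2 ≥ D + N` and
  `s_k < (N + 1) (m + 2 - N)`; or
* any uniruled variety, without condition on `s_k`.

Let `V` be the first variety of a tower with the bound `s = 2 r`, and let `V ⇢ X` be any dominant
rational map of degree `r` to a projective variety `X`, smooth or not; nothing is assumed about the map
(it need not be a quotient by a group and has no relation to the tower). The theorem: if there is no
rational curve on `X`, in particular if `X` is Kobayashi hyperbolic (every holomorphic map from `ℂ` to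
`X` is constant, by Brody's criterion), then the canonical class of (a resolution of) `X` is big. It is
enough that the union of the rational curves on `X` is not Zariski dense. In fact `X` is either of
general type or uniruled. If `X` is smooth and hyperbolic, then `K_X` is even ample, as Kobayashi's
conjecture predicts, because a big canonical divisor is ample if there are no rational curves (cone
theorem, base point free theorem); this last standard step is not formalised here.

With the best `N` the bound for the degree `r` is of the order of `b d ^ 2` (`b = b_0 ... b_(k - 1)`) for
towers over hypersurfaces of degree `d`, and of the order of `b m ^ 2` for towers over coverings of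
complete intersections. The starting results of this question have towers in tori and in products of
lines over uniruled varieties (`HyperbolicTowers`, `HyperbolicLines`); the hypersurfaces and the
coverings of varieties of low degree as bases are new here.

The dichotomy (of general type or uniruled) for these towers is a theorem of helper260
(`Pool/Agent/Run7/h260/TW/Fin.lean`), who handed it in for the abundance conjecture as
`MP_5ff3c6_ag.ImagesOfTowers`. Proof: if `X` is not of general type then the traces of the canonical
forms to `X` do not separate the general points of `X`, and at each step `V_i ⇢ X` factors through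
`V_(i + 1)`; at the bottom the theorems on hypersurfaces and on complete intersections of quadratic
degree (`N162/HN`, `N162/GP`) are used.

`K` and `L` are the function fields of `V` and `X`, and `x` is the generic point of `X`, in homogeneous
coordinates: `coords ℂ x` is the field generated by their ratios, and `VarPts ℂ x` is the set of the
points of `X`. `NoRationalCurve`, `BrodyHyperbolic`, `SpRat` (the Zariski closure of the union of the
rational curves on `X`) are in `Pool/Agent/R882/HYDefs.lean`.
-/

set_option autoImplicit false
set_option linter.overlappingInstances false

open FF Module Pool.Agent.W602.GT
open Pool.Agent.W619.PQ (IsUniruled)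
open Pool.Agent.Run7.h260.TW (Tower)
open Pool.Agent.R882.HY (NoRationalCurve BrodyHyperbolic SpRat)

namespace Pool.Agent.Results.MP_1e3e9c_ag.HyperbolicHypersurfaceTowers

/-- **Hyperbolic images of towers.** Let `K` be the function field of the first variety `V` of a tower
of dimension `n ≥ 1` with the bound `2 r` over a smooth hypersurface, a covering of a variety of low
degree, or a uniruled variety, and let `V ⇢ X` be a dominant rational map of degree `r` to a
projective variety `X` with function field `L` and generic point `x`. Then `X` is of general type if
and only if it is not uniruled; it is of general type if the union of the rational curves on `X` is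
not Zariski dense, in particular if there is no rational curve on `X`, in particular if every
holomorphic map from `ℂ` to `X` is constant. -/
theorem result {n : ℕ} (hn : 1 ≤ n) {K : Type} [Field K] [Algebra ℂ K] [Algebra.EssFiniteType ℂ K]
    (hK : Algebra.trdeg ℂ K = n) (L : Type) [Field L] [Algebra ℂ L] [Algebra L K]
    [IsScalarTower ℂ L K] [FiniteDimensional L K]
    (h : Tower 3 n (fun E _ _ => IsUniruled ℂ E n) K (2 * Module.finrank L K))
    {M : ℕ} {x : Fin (M + 1) → L} (hx : x ≠ 0) (hgen : coords ℂ x = ⊤) :
    (GeneralType ℂ L n ↔ ¬ IsUniruled ℂ L n) ∧
    (SpRat x ≠ VarPts ℂ x → GeneralType ℂ L n) ∧
    (NoRationalCurve x → GeneralType ℂ L n) ∧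
    (BrodyHyperbolic x → GeneralType ℂ L n) := by
  have h1 := Pool.Agent.Run7.h260.TW.gt_uniruled L hn hK le_rfl le_rfl h
  have h2 : ¬ GeneralType ℂ L n ↔ IsUniruled ℂ L n := h1.out 0 4
  exact Pool.Agent.R882.HY.of_dichotomy (Pool.Agent.Y184.NT.trdeg_below (K := K) hK)
    (or_iff_not_imp_left.2 h2.1) hx hgen

end Pool.Agent.Results.MP_1e3e9c_ag.HyperbolicHypersurfaceTowers
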