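import Pool.Agent.Run7.h260.TW.Prd
import Pool.Agent.R882.HYM

/-!
# Kobayashi's conjecture for the images of towers over products with a curve

A product tower of dimension `n` with the bound `s` (`ProductTower 3 n K s`) is a sequence of dominant
rational maps of finite degree `V = V_0 ⇢ V_1 ⇢ ... ⇢ V_k` between varieties of dimension `n` over `ℂ`. At
the step `V_i ⇢ V_(i + 1)`, of degree `b_i`, the canonical bundle of `V_i` is positive relative to
`V_(i + 1)` (`Positive`): `V_(i + 1)` is the image of `V_i` in a projective space, and for all varieties
`Y'`, `V_i ⇢ Y' ⇢ V_(i + 1)`, of degree `> 1` over `V_(i + 1)` there is a section of `K_(V_i) - m H` with a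
nonzero trace on `Y'`, where `s_i ≤ [V_i : Y'] (m + 1)`; for instance cyclic coverings of prime degree
branched along a sufficiently positive divisor. The bounds are `s_0 = s`, `s_(i + 1) = ⌊s_i / b_i⌋`. The
last variety `V_k`, with the bound `s_k`, is

* a product `X_0 × ... × X_(t - 1) × C` (`IsProduct`), where `C` is any smooth projective curve, and each
  `X_i` has a number `g_i > s_k` and is either a curve of gonality at least `g_i` or a variety in
  projective `(M + 1)`-space which is cut out by equations of degree at most `D` and has the regular
  canonical forms `P(x) ω₀` for all forms `P` of degree `m` (for instance a smooth complete intersection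
  of codimension at least two), `m ≥ 7 N + 4`, `(M + 1) N < m + M + 2`, `D + N ≤ m + 2`,
  `g_i ≤ (N + 1) (m + 2 - N)` for some `N` (`Factor`); `t = 0` is allowed; or
* a smooth hypersurface or a covering of a variety of low degree in the quadratic range (as in
  `HyperbolicHypersurfaceTowers`), or any uniruled variety.

Let `V` be the first variety of a tower with the bound `s = 2 r`, and let `V ⇢ X` be any dominant
rational map of degree `r` to a projective variety `X`, smooth or not; nothing is assumed about the map
(it need not be a quotient by a group and has no relation to the tower). The theorem: if the union of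
the rational curves on `X` is not Zariski dense, in particular if there is no rational curve on `X`, in
particular if `X` is Kobayashi hyperbolic (every holomorphic map from `ℂ` to `X` is constant, by Brody's
criterion), then `κ(X) ≥ n - 1 = dim X - 1`. If `X` is smooth and hyperbolic then `K_X` is ample, as
Kobayashi's conjecture predicts: if `κ(X) = dim X - 1` then the general fibres of the Iitaka fibration
are elliptic curves, and there would be nonconstant holomorphic maps from `ℂ` to `X`; so `K_X` is big, and
a big canonical divisor is ample if there are no rational curves (cone theorem, base point free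
theorem). These last standard steps are not formalised here.

If `C` is rational or elliptic, there are such `X` of Kodaira dimension `-∞` and `n - 1`.

The theorem that `X` is uniruled or `κ(X) ≥ n - 1` is helper260's (`Pool/Agent/Run7/h260/TW/Prd.lean`), who
handed it in for the abundance conjecture as `MP_9a2ae6_ag.ImagesOfProductTowers` and
`MP_9a2ae6_ag.ImagesOfProductTowers`. The starting results of this question have images of towers in tori
and in products of lines, and of hypersurfaces fibred by curves; towers over products are new here.

`K` and `L` are the function fields of `V` and `X`, and `x` is the generic point of `X`, in homogeneous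
coordinates: `coords ℂ x` is the field generated by their ratios, and `VarPts ℂ x` is the set of the
points of `X`. `NoRationalCurve`, `BrodyHyperbolic`, `SpRat` (the Zariski closure of the union of the
rational curves on `X`) are in `Pool/Agent/R882/HYDefs.lean`.
-/

set_option autoImplicit false
set_option linter.overlappingInstances false

open FF Module Pool.Agent.W602.GT
open Pool.Agent.W619.PQ (IsUniruled)
open Pool.Agent.Run7.h260.TW (ProductTower)
open Pool.Agent.R882.HY (NoRationalCurve BrodyHyperbolic SpRat)

namespace Pool.Agent.Results.MP_1e3e9c_ag.HyperbolicTowersOverProducts

/-- **Hyperbolic images of towers over products.** Let `K` be the function field of the first variety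
`V` of a tower of dimension `n ≥ 1` with the bound `2 r` over a product of varieties of low degree,
curves of large gonality and an arbitrary curve, over a smooth hypersurface or a covering of a variety
of low degree, or over a uniruled variety, and let `V ⇢ X` be a dominant rational map of degree `r` to
a projective variety `X` with function field `L` and generic point `x`. Then `κ(X) ≥ n - 1` if and only if
`X` is not uniruled; and `κ(X) ≥ n - 1` if the union of the rational curves on `X` is not Zariski dense,
in particular if there is no rational curve on `X`, in particular if every holomorphic map from `ℂ` to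
`X` is constant. -/
theorem result {n : ℕ} (hn : 1 ≤ n) {K : Type} [Field K] [Algebra ℂ K] [Algebra.EssFiniteType ℂ K]
    (hK : Algebra.trdeg ℂ K = n) (L : Type) [Field L] [Algebra ℂ L] [Algebra L K]
    [IsScalarTower ℂ L K] [FiniteDimensional L K]
    (h : ProductTower 3 n K (2 * Module.finrank L K))
    {M : ℕ} {x : Fin (M + 1) → L} (hx : x ≠ 0) (hgen : coords ℂ x = ⊤) :
    (KodGe ℂ L n (fun _ => False) (n - 1) ↔ ¬ IsUniruled ℂ L n) ∧
    (SpRat x ≠ VarPts ℂ x → KodGe ℂ L n (fun _ => False) (n - 1)) ∧
    (NoRationalCurve x → KodGe ℂ L n (fun _ => False) (n - 1)) ∧
    (BrodyHyperbolic x → KodGe ℂ L n (fun _ => False) (n - 1)) := by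
  have hL : Algebra.trdeg ℂ L = n := Pool.Agent.Y184.NT.trdeg_below (K := K) hK
  have h1 := Pool.Agent.Run7.h260.TW.ptower_dich L hn hK le_rfl le_rfl h
  have h2 : KodGe ℂ L n (fun _ => False) (n - 1) ↔ ¬ IsUniruled ℂ L n := h1.out 1 2
  have h3 : NoRationalCurve x → KodGe ℂ L n (fun _ => False) (n - 1) :=
    fun h4 => h2.2 fun hU => Pool.Agent.R882.HY.not_noRat hL hU hx hgen h4
  exact ⟨h2, fun h4 => h2.2 fun hU => h4 (Pool.Agent.R882.HY.spRat_eq hL hU hx hgen), h3,
    fun h4 => h3 (Pool.Agent.R882.HY.noRat_of_hyperbolic h4)⟩

end Pool.Agent.Results.MP_1e3e9c_ag.HyperbolicTowersOverProducts
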