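import Mathlib
import Pool.Agent.Run7.h972.LS.First
import Pool.Agent.Run7.h972.LS.KB

/-!
# Kobayashi's conjecture is a question on subvarieties of smooth hyperbolic hypersurfaces

Let `X = V(S)` be any projective variety in `P^n`, `n ≥ 1` (any dimension and any singularities), over
`ℂ`, given by forms of degree at most `d`, `d ≥ 3`, and `v : P^n → P^N` the Veronese embedding of
degree `d`. For all `D ≥ D₁(N)` there are quadratic forms `Q_t`, `t < N (2 N + 1)`, such that the
hypersurface

`Y : ∑ t, Q_t(y) (y_0 + t y_1 + ⋯ + t^N y_N)^D = 0`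

is smooth, contains `v(X)`, and `Y` is hyperbolic if and only if `X` is hyperbolic; moreover all closed
subvarieties of `Y` of positive dimension which are not of general type lie in `v(X)`. So every
hyperbolic projective variety is a subvariety of a smooth hyperbolic hypersurface of this form. If `X`
is irreducible, with generic point `y`, then `X` is smooth if and only if `v(X)`, with generic point
`v(y)`, is smooth, where smooth means that all local rings are regular.

Kobayashi's conjecture in the form *every smooth hyperbolic projective variety of positive dimension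
is of general type* is equivalent to: *if one of the smooth hypersurfaces above is hyperbolic, then
all its smooth closed subvarieties of positive dimension are of general type*; here `D` may be
restricted to any given infinite set `E`. (For smooth `X` without rational curves `K_X` is ample if it is
big, by the cone theorem and the base point free theorem; so this form is Q1. This standard step is not
formalised here.)

Proof. `v(X)` lies in `Y`, which is hyperbolic since `X` is; the local ring of `v(X)` at `v(x)` and the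
local ring of `X` at `x` are the same subring of the function field; and the points of `v(X)` are
given by the quadratic equations of the Veronese variety and the forms in `S`.
-/

set_option autoImplicit false

namespace Pool.Agent.Results.MP_1e3e9c_ag.SmoothHypersurfacesSuffice

open MvPolynomial
open Pool.Agent.W602.GT (SubVar GeneralType)
open Pool.Agent.N254.SQ (IsForm Eqs SmoothForm powerForm Monomials veronese)
open Run7.h972.LS (localRing)

/-- the projective variety with generic point `y` is smooth: its local rings at the points `x` are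
regular -/
def SmoothVariety {n : ℕ} {L : Type} [Field L] [Algebra ℂ L] (y : Fin (n + 1) → L) : Prop :=
  ∀ x : Fin (n + 1) → ℂ, x ≠ 0 → (∀ p ∈ Eqs y, eval x p = 0) →
    IsRegularLocalRing (localRing y x)

/-- all entire curves in `V(S)` are constant: `V(S)` is hyperbolic -/
def Hyperbolic {n : ℕ} (S : Set (MvPolynomial (Fin (n + 1)) ℂ)) : Prop :=
  ∀ f : ℂ → (Fin (n + 1) → ℂ), Differentiable ℂ f → (∀ z, f z ≠ 0) →
    (∀ z, ∀ p ∈ S, eval (f z) p = 0) → ∀ z w, ∃ c : ℂ, f w = c • f z

/-- Kobayashi's conjecture: the smooth hyperbolic projective varieties of positive dimension are of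
general type -/
def Kobayashi : Prop :=
  ∀ (n : ℕ) (L : Type) [Field L] [Algebra ℂ L] (w : ℕ) (y : Fin (n + 1) → L), 1 ≤ w →
    SubVar (fun p : (∅ : Set (MvPolynomial (Fin (n + 1)) ℂ)) => (p : MvPolynomial (Fin (n + 1)) ℂ))
      L w y → SmoothVariety y → Hyperbolic (Eqs y) → GeneralType ℂ L w

/-- if the hypersurface `A = 0` is hyperbolic then its smooth subvarieties of positive dimension are
of general type -/
def Condition {N : ℕ} (A : MvPolynomial (Fin (N + 1)) ℂ) : Prop :=
  Hyperbolic {A} → ∀ (L : Type) [Field L] [Algebra ℂ L] (w : ℕ) (y : Fin (N + 1) → L), 1 ≤ w →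
    SubVar (fun _ : Unit => A) L w y → SmoothVariety y → GeneralType ℂ L w

/-- the smooth hypersurfaces through the Veronese images of all projective varieties -/
def Through (D₁ : ℕ → ℕ) : Prop :=
  ∀ n d : ℕ, 1 ≤ n → 3 ≤ d → ∃ (N : ℕ) (m : Fin (N + 1) → Fin (n + 1) → ℕ),
    Monomials n N d m ∧ ∀ D, D₁ N ≤ D →
      ∀ S : Set (MvPolynomial (Fin (n + 1)) ℂ), (∀ p ∈ S, ∃ e ≤ d, p.IsHomogeneous e) →
      ∃ Q : Fin (N * (2 * N + 1)) → MvPolynomial (Fin (N + 1)) ℂ,
        (∀ t, (Q t).IsHomogeneous 2) ∧ SmoothForm (powerForm D Q) ∧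
        (∀ x : Fin (n + 1) → ℂ, (∀ p ∈ S, eval x p = 0) →
          eval (veronese m x) (powerForm D Q) = 0) ∧
        (Hyperbolic {powerForm D Q} ↔ Hyperbolic S) ∧
        (∀ (L : Type) [Field L] [Algebra ℂ L] (w : ℕ) (y : Fin (N + 1) → L), 1 ≤ w →
          SubVar (fun _ : Unit => powerForm D Q) L w y → GeneralType ℂ L w ∨
            ∃ (x : Fin (n + 1) → L) (c : L), c ≠ 0 ∧ (∀ p ∈ S, aeval x p = 0) ∧
              y = c • veronese m x) ∧
        ∀ (L : Type) [Field L] [Algebra ℂ L] (w : ℕ) (y : Fin (n + 1) → L),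
          SubVar (fun p : S => (p : MvPolynomial (Fin (n + 1)) ℂ)) L w y →
          (∀ G, IsForm G → aeval y G = 0 → ∀ x : Fin (n + 1) → ℂ,
            (∀ p ∈ S, eval x p = 0) → eval x G = 0) →
          SubVar (fun _ : Unit => powerForm D Q) L w (veronese m y) ∧
            (SmoothVariety (veronese m y) ↔ SmoothVariety y)

theorem result : ∃ D₁ : ℕ → ℕ, Through D₁ ∧
    ∀ E : Set ℕ, E.Infinite → (Kobayashi ↔
      ∀ (N D : ℕ) (Q : Fin (N * (2 * N + 1)) → MvPolynomial (Fin (N + 1)) ℂ), D ∈ E →
        D₁ N ≤ D → (∀ t, (Q t).IsHomogeneous 2) → SmoothForm (powerForm D Q) →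
        Condition (powerForm D Q)) := by
  obtain ⟨D₁, H⟩ := Run7.h972.LS.t_cons
  refine ⟨D₁, fun n d hn hd => ?_, fun E hE => ⟨fun h N D Q _ _ hQ _ =>
    Run7.h972.LS.kob_forw h ⟨_, Pool.Agent.N254.SQ.power_form hQ⟩,
    fun h => Run7.h972.LS.kob_back hE H h⟩⟩
  obtain ⟨N, m, hm, H2⟩ := Run7.h972.LS.cons_complex H n d hn hd
  refine ⟨N, m, hm, fun D hD S hS => ?_⟩
  obtain ⟨Q, hQ, hsm, hg⟩ := H2 D hD S hS
  refine ⟨Q, hQ, hsm, fun x hx => hg.sub ℂ x hx, Run7.h972.LS.hyp_good hg, ?_, ?_⟩
  · intro L _ _ w y hw hy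
    rcases hg.special L w y hw (Run7.h972.LS.sub_unit hy) with h1 | ⟨x, c, -, hc, hx, hyx⟩
    · exact Or.inl h1
    · exact Or.inr ⟨x, c, hc, hx, hyx⟩
  · intro L _ _ w y hy hirr
    refine ⟨Run7.h972.LS.unit_sub (Pool.Agent.N254.SQ.sub_ver hg hy), ?_⟩
    exact Run7.h972.LS.smooth_ver hg.mon hg.deg hS (fun p hp => hy.mem ⟨p, hp⟩)
      (fun G hG hGy Ω _ _ x hx => Run7.h972.LS.null (fun x hx => hirr G hG hGy x hx) Ω x hx)

end Pool.Agent.Results.MP_1e3e9c_ag.SmoothHypersurfacesSuffice
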